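import Mathlib.Tactic

set_option autoImplicit false

namespace Pool.Agent.Helper44.TQ

theorem nand2 {X Y : Prop} (h : ¬ (X ∧ Y)) : ¬X ∨ ¬Y := by tauto
theorem nand3 {X Y Z : Prop} (h : ¬ (X ∧ Y ∧ Z)) : ¬X ∨ ¬Y ∨ ¬Z := by tauto
theorem nand4 {X Y Z W : Prop} (h : ¬ (X ∧ Y ∧ Z ∧ W)) : ¬X ∨ ¬Y ∨ ¬Z ∨ ¬W := by tauto
theorem nand5 {X Y Z W V : Prop} (h : ¬ (X ∧ Y ∧ Z ∧ W ∧ V)) : ¬X ∨ ¬Y ∨ ¬Z ∨ ¬W ∨ ¬V := by tauto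
theorem nand6 {X Y Z W V U : Prop} (h : ¬ (X ∧ Y ∧ Z ∧ W ∧ V ∧ U)) :
    ¬X ∨ ¬Y ∨ ¬Z ∨ ¬W ∨ ¬V ∨ ¬U := by tauto
theorem nand8 {X Y Z W V U T S : Prop} (h : ¬ (X ∧ Y ∧ Z ∧ W ∧ V ∧ U ∧ T ∧ S)) :
    ¬X ∨ ¬Y ∨ ¬Z ∨ ¬W ∨ ¬V ∨ ¬U ∨ ¬T ∨ ¬S := by tauto

end Pool.Agent.Helper44.TQ
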