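import Pool.Agent.Helper89.TQ.Ctx
import Pool.Agent.Helper44.TQ.Nand

set_option autoImplicit false
set_option linter.all false
set_option maxHeartbeats 40000000

namespace Pool.Agent.Helper44.TQ

open Pool.Agent.Helper89.TQ


theorem c0_13_23_33_k2 {n1 n2 n3 A1 A2 A3 B1 B2 B3 m11_1 m11_2 m11_3 m13_1 m13_2 m13_3 m22_1 m22_2 m22_3 m23_1 m23_2 m23_3 m33_1 m33_2 m33_3 : ℤ}
    (C : Ctx0 n1 n2 n3 A1 A2 A3 B1 B2 B3 m11_1 m11_2 m11_3 m13_1 m13_2 m13_3 m22_1 m22_2 m22_3 m23_1 m23_2 m23_3 m33_1 m33_2 m33_3)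
    (e0 : 0 < A1)
    (e1 : 0 < B3)
    (e2 : 0 < A2)
    (e3 : 0 < A3)
    (s1 : 2 * A1 + 1 * B1 ≤ m13_1 + m23_1 + m33_1)
    (s2 : 2 * A2 + 1 * B2 ≤ m13_2 + m23_2 + m33_2)
    (s3 : 2 * A3 + 1 * B3 ≤ m13_3 + m23_3 + m33_3) : False := by
  have h0 := C.a0
  have h1 := C.a1
  have h2 := C.a2
  have h3 := C.a3
  have h4 := C.a4
  have h5 := C.a5
  have h6 := C.b0
  have h7 := C.b1
  have h8 := C.b2
  have h9 := C.b3
  have h10 := C.b4
  have h11 := C.b5
  have h12 := C.o0
  have h13 := C.o1
  have h14 := C.o2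
  all_goals (have h15 := C.f33_0)
  all_goals (have h16 := C.f33_1)
  all_goals (have h17 := C.f33_3)
  all_goals (have h18 := C.f33_4)
  all_goals (have h19 := C.f33_6)
  all_goals (have h20 := C.f33_7)
  all_goals (try omega)
  all_goals (rcases C.f33_2 with g21 | g21)
  all_goals (try omega)
  all_goals (rcases C.f33_5 with g22 | g22)
  all_goals (try omega)
  all_goals (rcases C.f33_8 with g23 | g23)
  all_goals (try omega)
  all_goals (have h24 := C.f13_0)
  all_goals (have h25 := C.f13_1)
  all_goals (have h26 := C.f13_3)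
  all_goals (have h27 := C.f13_4)
  all_goals (have h28 := C.f13_6)
  all_goals (have h29 := C.f13_7)
  all_goals (try omega)
  all_goals (rcases C.f13_2 with g30 | g30)
  all_goals (try omega)
  all_goals (rcases C.f13_5 with g31 | g31)
  all_goals (try omega)
  all_goals (rcases C.f13_8 with g32 | g32)
  all_goals (try omega)
  all_goals (have h33 := C.f23_0)
  all_goals (have h34 := C.f23_1)
  all_goals (have h35 := C.f23_2)
  all_goals (have h36 := C.f23_4)
  all_goals (have h37 := C.f23_5)
  all_goals (have h38 := C.f23_6)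
  all_goals (have h39 := C.f23_8)
  all_goals (have h40 := C.f23_9)
  all_goals (try omega)
  all_goals (rcases C.f23_3 with g41 | g41 | g41)
  all_goals (try omega)
  all_goals (rcases C.f23_7 with g42 | g42 | g42)
  all_goals (try omega)
  all_goals (rcases C.f23_10 with g43 | g43)
  all_goals (try omega)
  all_goals (rcases C.t12 with ⟨g44, g44'⟩ | ⟨g44, g44'⟩)
  all_goals (try omega)
  all_goals (rcases C.t23 with ⟨g45, g45'⟩ | ⟨g45, g45'⟩)
  all_goals (try omega)
  all_goals (rcases nand3 (C.p13_33A (by omega) (by omega) (by omega)) with g46 | g46 | g46)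
  all_goals (try omega)
  all_goals (rcases nand8 C.tpzm with g47 | g47 | g47 | g47 | g47 | g47 | g47 | g47)
  all_goals (try omega)
  all_goals (rcases nand5 C.tzpm with g48 | g48 | g48 | g48 | g48)
  all_goals (try omega)
  all_goals (rcases nand3 (C.p13_33B (by omega) (by omega) (by omega)) with g49 | g49 | g49)
  all_goals (try omega)
  all_goals (rcases nand3 (C.p13_23A (by omega) (by omega) (by omega)) with g50 | g50 | g50)
  all_goals (try omega)
  all_goals (rcases nand3 (C.p23_33A (by omega) (by omega) (by omega)) with g51 | g51 | g51)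
  all_goals (try omega)

end Pool.Agent.Helper44.TQ
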